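import Pool.Agent.Lib.MP_a2b538_an.Sm.Block

/-! The blocks are placed side by side in the sequence space. -/

namespace Pool.Agent.Lib.MP_a2b538_an.Sm

open Finset Filter Topology

variable {𝕜 : Type} [RCLike 𝕜] {p : ENNReal}

theorem exists_time {V J : Type} [Fintype V] (σ : ℕ ≃ J) (i : V → J) (hi : Function.Injective i)
    {s : ℕ} (hs : s ≤ Fintype.card V) :
    ∃ N, s ≤ N ∧ (univ.filter fun j => σ.symm (i j) < N).card = s := by
  classical
  have hex : ∃ N, s ≤ (univ.filter fun j => σ.symm (i j) < N).card :=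
    ⟨(univ.sup fun j => σ.symm (i j)) + 1, by
      rwa [filter_true_of_mem fun j hj => Nat.lt_succ_of_le (le_sup (f := fun j => σ.symm (i j)) hj)]⟩
  refine ⟨Nat.find hex, (Nat.find_spec hex).trans ((card_le_card_of_injOn (fun j => σ.symm (i j))
    (fun j hj => by simpa using hj) (σ.symm.injective.comp hi).injOn).trans_eq (card_range _)),
    le_antisymm ?_ (Nat.find_spec hex)⟩
  rcases h : Nat.find hex with _ | N
  · simp
  · have h1 := Nat.find_min hex (show N < Nat.find hex by omega)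
    have h2 : (univ.filter fun j => σ.symm (i j) < N + 1) ⊆
        (univ.filter fun j => σ.symm (i j) < N) ∪ univ.filter fun j => σ.symm (i j) = N :=
      fun j hj => by
        simp only [mem_union, mem_filter, mem_univ, true_and] at hj ⊢
        omega
    have h3 : (univ.filter fun j => σ.symm (i j) = N).card ≤ 1 := card_le_one.2 fun a ha b hb =>
      hi (σ.symm.injective ((mem_filter.1 ha).2.trans (mem_filter.1 hb).2.symm))
    have := (card_le_card h2).trans (card_union_le _ _)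
    omega

theorem en_nonneg {V : Type} [Fintype V] (r : ℝ) (a : V → 𝕜) : 0 ≤ En r a :=
  sum_nonneg fun _ _ => by positivity

theorem en_zero {V : Type} [Fintype V] {r : ℝ} (h : 0 < r) : En r (0 : V → 𝕜) = 0 := by
  simp [En, Real.zero_rpow h.ne']

theorem en_smul {V : Type} [Fintype V] (r : ℝ) (t : 𝕜) (a : V → 𝕜) :
    En r (t • a) = ‖t‖ ^ r * En r a := by
  simp only [En, Pi.smul_apply, norm_smul, Real.mul_rpow (norm_nonneg _) (norm_nonneg _), mul_sum]

theorem slots (p0 : 0 < p.toReal) {V : ℕ → Type} [∀ m, Fintype (V m)] (τ : (Σ m, V m) ≃ ℕ) :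
    ∃ res : ∀ m, lp (fun _ : ℕ => 𝕜) p →ₗ[𝕜] V m → 𝕜, (∀ m x, ‖res m x‖ ≤ ‖x‖) ∧
      (∀ x, HasSum (fun m => En p.toReal (res m x)) (‖x‖ ^ p.toReal)) ∧
      ∀ y : ∀ m, V m → 𝕜, Summable (fun m => En p.toReal (y m)) → ∃ x, ∀ m, res m x = y m := by
  refine ⟨fun m => ⟨⟨fun x v => x (τ ⟨m, v⟩), fun _ _ => rfl⟩, fun _ _ => rfl⟩, fun m x => ?_,
    fun x => ?_, fun y hy => ?_⟩
  · exact (pi_norm_le_iff_of_nonneg (lp.norm_nonneg' x)).2 fun v =>
      lp.norm_apply_le_norm (by rintro rfl; simp at p0) x _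
  · exact ((τ.hasSum_iff (f := fun n => ‖x n‖ ^ p.toReal)).2 (lp.hasSum_norm p0 x)).sigma
      fun m => hasSum_fintype _
  · refine ⟨⟨fun n => y (τ.symm n).1 (τ.symm n).2, memℓp_gen ?_⟩, fun m => funext fun v =>
      congrArg (fun j : Σ m, V m => y j.1 j.2) (τ.symm_apply_apply ⟨m, v⟩)⟩
    have k : Summable fun j : Σ m, V m => ‖y j.1 j.2‖ ^ p.toReal :=
      (summable_sigma_of_nonneg fun j => by positivity).2
        ⟨fun m => (hasSum_fintype _).summable, by simpa only [tsum_fintype, En] using hy⟩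
    exact τ.symm.summable_iff.2 k

theorem core (p0 : 0 < p.toReal) (p1 : p.toReal < 1) :
    ∃ (e : ℕ → lp (fun _ : ℕ => 𝕜) p) (f : ℕ → lp (fun _ : ℕ => 𝕜) p →ₗ[𝕜] 𝕜) (bl : ℕ → ℕ),
      (∀ N, {n | bl n < N}.Finite) ∧ (∀ n k, f n (e k) = if n = k then 1 else 0) ∧
      (∀ n, ‖e n‖ ^ p.toReal ≤ 2) ∧ (∀ n x, ‖f n x‖ ≤ 2 * ‖x‖) ∧
      (∀ x (A : ℕ → Finset ℕ),
        (∀ N, ∀ n ∈ A N, ∀ k ∉ A N, bl n = bl k → ‖f k x‖ ≤ ‖f n x‖) →
        (∀ n, f n x ≠ 0 → ∀ᶠ N in atTop, n ∈ A N) →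
        Tendsto (fun N => ‖x - ∑ n ∈ A N, f n x • e n‖) atTop (𝓝 0)) ∧
      ∀ σ : ℕ ≃ ℕ, ∃ x, ∀ m, ∃ N, m ≤ N ∧ 1 ≤ ‖x - ∑ n ∈ range N, f (σ n) x • e (σ n)‖ := by
  classical
  obtain ⟨D, hD⟩ := exists_par p0 p1
  choose V G i1 i2 i3 π s hG hd using fun m : ℕ => exists_gr (16 * 2 ^ m) D (by positivity)
  obtain ⟨δ, hP⟩ : ∃ δ : ℕ → ℝ, ∀ m, Par p.toReal (δ m) (Fintype.card (G m)) :=
    ⟨_, fun m => hD _ (hd m)⟩
  obtain ⟨T, hT⟩ : ∃ T : ∀ m, (V m → 𝕜) ≃ₗ[𝕜] V m → 𝕜,
      ∀ m a, T m a = a - Sop 𝕜 (π m) (δ m) a :=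
    ⟨fun m => LinearEquiv.ofInjectiveEndo (LinearMap.id - Sop 𝕜 (π m) (δ m))
      ((injective_iff_map_eq_zero _).2 fun a ha => norm_le_zero_iff.1 (by
        have := coord (π := π m) (hP m) a
        rwa [show a - Sop 𝕜 (π m) (δ m) a = 0 from ha, norm_zero, mul_zero] at this)),
      fun _ _ => rfl⟩
  have ne : ∀ m, Nonempty (V m) := fun m => Fintype.card_pos_iff.1 (by
    have := (hG m).half
    have := (hG m).big
    have : 0 < 2 ^ m := by positivity
    omega)
  have : Infinite (Σ m, V m) := Infinite.of_injective (fun m : ℕ => ⟨m, (ne m).some⟩)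
    fun a b h => congrArg Sigma.fst h
  obtain ⟨τ⟩ : Nonempty ((Σ m, V m) ≃ ℕ) := nonempty_equiv_of_countable
  obtain ⟨res, r1, r2, r3⟩ := slots (𝕜 := 𝕜) p0 τ
  have r4 : ∀ (j : Σ m, V m) m, m ≠ j.1 → En p.toReal
      (Pi.single (M := fun m => V m → 𝕜) j.1 (T j.1 (Pi.single j.2 1)) m) = 0 := fun j m hm => by
    rw [Pi.single_eq_of_ne hm, en_zero p0]
  choose e he using fun j : Σ m, V m => r3 _ (hasSum_single j.1 (r4 j)).summable
  obtain ⟨f, hf⟩ : ∃ f : (Σ m, V m) → lp (fun _ : ℕ => 𝕜) p →ₗ[𝕜] 𝕜,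
      ∀ m v x, f ⟨m, v⟩ x = (T m).symm (res m x) v :=
    ⟨fun j => (LinearMap.proj j.2).comp ((T j.1).symm.toLinearMap.comp (res j.1)),
      fun _ _ _ => rfl⟩
  have bi : ∀ j k, f j (e k) = if j = k then 1 else 0 := by
    rintro ⟨m, v⟩ ⟨m', v'⟩
    rw [hf, he]
    rcases eq_or_ne m m' with rfl | hm
    · simp [Pi.single_apply]
    · rw [Pi.single_eq_of_ne hm, map_zero, if_neg fun h => hm (congrArg Sigma.fst h), Pi.zero_apply]
  have key : ∀ (σ : ℕ ≃ Σ m, V m) x (A : Finset ℕ) m,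
      res m (x - ∑ n ∈ A, f (σ n) x • e (σ n)) =
        T m (cut (univ.filter fun v => σ.symm ⟨m, v⟩ ∈ A)ᶜ ((T m).symm (res m x))) :=
    fun σ x A m => (T m).symm_apply_eq.1 (funext fun v => by
      rw [← hf, map_sub, map_sum]
      simp only [map_smul, bi, ← σ.symm_apply_eq, smul_eq_mul, mul_ite, mul_one, mul_zero,
        sum_ite_eq, σ.apply_symm_apply, cut, mem_compl, mem_filter, mem_univ, true_and]
      split_ifs <;> simp [hf])
  refine ⟨fun n => e (τ.symm n), fun n => f (τ.symm n), fun n => (τ.symm n).1, fun N => ?_,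
    fun n k => by simp [bi], fun n => ?_, fun n x => ?_, fun x A h1 h2 => ?_, fun σ => ?_⟩
  · refine (((range N).sigma fun m => (univ : Finset (V m))).image τ).finite_toSet.subset
      fun n hn => ?_
    exact mem_coe.2 (mem_image.2 ⟨τ.symm n, mem_sigma.2 ⟨mem_range.2 hn, mem_univ _⟩, by simp⟩)
  · beta_reduce
    generalize τ.symm n = j
    have k1 := r2 (e j)
    simp only [he] at k1
    rw [k1.unique (hasSum_single j.1 (r4 j)), Pi.single_eq_same, hT]
    have k2 : En p.toReal (Pi.single j.2 (1 : 𝕜) : V j.1 → 𝕜) = 1 := by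
      rw [En, sum_eq_single j.2 (fun u _ k => by simp [k, Real.zero_rpow p0.ne']) (by simp)]
      simp
    linarith [en_sub p0 p1 (Pi.single j.2 (1 : 𝕜) : V j.1 → 𝕜)
      (Sop 𝕜 (π j.1) (δ j.1) (Pi.single j.2 1)), en_sop (π := π j.1) (hP j.1) (Pi.single j.2 (1 : 𝕜))]
  · beta_reduce
    obtain ⟨m, v⟩ := τ.symm n
    have k1 := coord (π := π m) (hP m) ((T m).symm (res m x))
    rw [← hT, (T m).apply_symm_apply] at k1
    rw [hf]
    linarith [norm_le_pi_norm ((T m).symm (res m x)) v, r1 m x]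
  · have k1 := tendsto_tsum_of_dominated_convergence (𝓕 := atTop) (g := fun _ => (0 : ℝ))
      (f := fun N m => En p.toReal (res m (x - ∑ n ∈ A N, f (τ.symm n) x • e (τ.symm n))))
      ((r2 x).summable.mul_left 5) (fun m => tendsto_const_nhds.congr' ?_)
      (Eventually.of_forall fun N m => ?_)
    · simp only [(r2 _).tsum_eq, tsum_zero] at k1
      have k2 := k1.rpow_const (p := p.toReal⁻¹) (Or.inr (inv_pos.2 p0).le)
      simp only [Real.rpow_rpow_inv (lp.norm_nonneg' _) p0.ne'] at k2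
      rwa [Real.zero_rpow (inv_pos.2 p0).ne'] at k2
    · have k2 : ∀ᶠ N in atTop, ∀ v : V m, f ⟨m, v⟩ x ≠ 0 → τ ⟨m, v⟩ ∈ A N :=
        eventually_all.2 fun v => by
          by_cases k : f ⟨m, v⟩ x = 0
          · exact Eventually.of_forall fun N k' => (k' k).elim
          · exact (h2 (τ ⟨m, v⟩) (by simpa using k)).mono fun N k' _ => k'
      refine k2.mono fun N hN => ?_
      have k3 : cut (univ.filter fun v => τ.symm.symm ⟨m, v⟩ ∈ A N)ᶜ ((T m).symm (res m x)) = 0 :=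
        funext fun v => by
          rw [cut, ← hf]
          split_ifs with k
          · by_contra k'
            simp [hN v k'] at k
          · rfl
      simp only [key τ.symm, k3, map_zero, en_zero p0]
    · rw [Real.norm_of_nonneg (en_nonneg _ _), key τ.symm, hT]
      refine (greedy (hP m) _ _ fun u hu v hv => ?_).trans_eq ?_
      · have := h1 N _ (mem_filter.1 hu).2 _ (fun k => hv (mem_filter.2 ⟨mem_univ _, k⟩)) (by simp)
        simpa [hf] using this
      · rw [← hT, (T m).apply_symm_apply]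
  · choose N n1 n2 using fun m => exists_time (σ.trans τ.symm) (fun v : V m => (⟨m, v⟩ : Σ m, V m))
      (fun a b h => by simpa using h) (s := s m) (by have := (hG m).half; omega)
    choose a a1 a2 using fun m => bad (𝕜 := 𝕜) (hP m) (hG m) (by positivity)
      (univ.filter fun v => (σ.trans τ.symm).symm ⟨m, v⟩ ∈ range (N m))ᶜ (by
        have := (hG m).half
        simp only [card_compl, mem_range, n2]
        omega)
    obtain ⟨t, ht⟩ : ∃ t : ℕ → 𝕜, ∀ m, ‖t m‖ ^ p.toReal = (1 / 2) ^ m :=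
      ⟨fun m => (((1 / 2 : ℝ) ^ m) ^ p.toReal⁻¹ : ℝ), fun m => by
        rw [RCLike.norm_ofReal, abs_of_nonneg (by positivity),
          Real.rpow_inv_rpow (by positivity) p0.ne']⟩
    obtain ⟨x, hx⟩ := r3 (fun m => t m • T m (a m)) (Summable.of_nonneg_of_le
      (fun m => en_nonneg _ _) (fun m => by
        rw [en_smul, ht, hT]
        exact mul_le_mul_of_nonneg_left (a1 m) (by positivity)) (summable_geometric_two.mul_right 2))
    refine ⟨x, fun m => ⟨N m, ?_, ?_⟩⟩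
    · have := (hG m).big
      have := n1 m
      have : m < 2 ^ m := Nat.lt_two_pow_self
      omega
    · have k1 := le_hasSum (r2 (x - ∑ n ∈ range (N m), f ((σ.trans τ.symm) n) x •
        e ((σ.trans τ.symm) n))) m fun _ _ => en_nonneg _ _
      have k2 : ∀ (B : Finset (V m)) (b : V m → 𝕜), cut B (t m • b) = t m • cut B b := fun B b =>
        funext fun v => by simp [cut]
      rw [key, hx, ← map_smul, (T m).symm_apply_apply, k2, map_smul, en_smul, ht, hT] at k1
      have k3 := a2 m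
      have k4 : ((1 : ℝ) / 2) ^ m * 2 ^ m = 1 := by rw [← mul_pow]; norm_num
      have k5 : (0 : ℝ) < (1 / 2) ^ m := by positivity
      push_cast at k3
      refine le_of_not_gt fun c => absurd (k1.trans_lt (Real.rpow_lt_one (lp.norm_nonneg' _) c p0))
        (not_lt.2 ?_)
      nlinarith

end Pool.Agent.Lib.MP_a2b538_an.Sm
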