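import Pool.Agent.Lib.MP_a2b538_an.Sm.Graph

/-! The finite blocks: the vectors `e_v - S e_v`. -/

namespace Pool.Agent.Lib.MP_a2b538_an.Sm

open Finset

variable {𝕜 : Type} [RCLike 𝕜] {V G : Type} [Fintype V] [DecidableEq V] [Fintype G] {p δ : ℝ}

/-- The `p`-th power of the quasi-norm. -/
noncomputable def En (p : ℝ) (y : V → 𝕜) : ℝ := ∑ u, ‖y u‖ ^ p

/-- Restriction to a set. -/
def cut (A : Finset V) (a : V → 𝕜) : V → 𝕜 := fun u => if u ∈ A then a u else 0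

/-- The weighted sum of the shifts. -/
def Sop (𝕜 : Type) [RCLike 𝕜] (π : G → Equiv.Perm V) (δ : ℝ) : (V → 𝕜) →ₗ[𝕜] (V → 𝕜) where
  toFun a u := δ * ∑ g, a ((π g).symm u)
  map_add' a b := by ext u; simp [sum_add_distrib, mul_add]
  map_smul' c a := by ext u; simp [mul_sum, mul_left_comm]

/-- The conditions on the exponent, the weight and the degree. -/
structure Par (p δ : ℝ) (d : ℕ) : Prop where
  p0 : 0 < p
  p1 : p < 1
  d0 : 0 < δ
  one : d * δ ^ p = 1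
  rho : (d * δ) ^ (1 - p) ≤ 1 / 2
  two : 2 ≤ d

theorem nsub (p0 : 0 < p) (p1 : p < 1) (x y : 𝕜) : ‖x + y‖ ^ p ≤ ‖x‖ ^ p + ‖y‖ ^ p :=
  (Real.rpow_le_rpow (norm_nonneg _) (norm_add_le x y) p0.le).trans
    (Real.rpow_add_le_add_rpow (norm_nonneg _) (norm_nonneg _) p0.le p1.le)

theorem nsum (p0 : 0 < p) (p1 : p < 1) {ι : Type} (s : Finset ι) (f : ι → 𝕜) :
    ‖∑ i ∈ s, f i‖ ^ p ≤ ∑ i ∈ s, ‖f i‖ ^ p := by
  classical
  induction s using Finset.induction_on with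
  | empty => simp [Real.zero_rpow p0.ne']
  | insert i s hi ih =>
    rw [sum_insert hi, sum_insert hi]
    exact (nsub p0 p1 _ _).trans (add_le_add le_rfl ih)

theorem key (p0 : 0 < p) (p1 : p < 1) {ρ : ℝ} (h1 : ρ ≤ 1) (h2 : ρ ^ (1 - p) ≤ 1 / 2) {a b : 𝕜}
    (h : ‖b‖ ≤ ρ * ‖a‖) : ‖a‖ ^ p ≤ ‖a - b‖ ^ p + ‖b‖ ^ p / 2 := by
  rcases (norm_nonneg a).eq_or_lt with e | e
  · rw [← e, Real.zero_rpow p0.ne']
    positivity
  obtain ⟨s, hs⟩ : ∃ s, s = ‖b‖ / ‖a‖ := ⟨_, rfl⟩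
  have s0 : 0 ≤ s := by rw [hs]; positivity
  have s1 : s ≤ ρ := by rwa [hs, div_le_iff₀ e]
  have s2 : ‖b‖ = ‖a‖ * s := by rw [hs]; field_simp
  have k1 : (‖a‖ * (1 - s)) ^ p ≤ ‖a - b‖ ^ p := Real.rpow_le_rpow
    (mul_nonneg e.le (by linarith)) (by linarith [norm_sub_norm_le a b]) p0.le
  have k2 : 1 - s ≤ (1 - s) ^ p :=
    Real.self_le_rpow_of_le_one (by linarith) (by linarith) p1.le
  have k3 : s ≤ s ^ p / 2 := by
    have k4 := (Real.rpow_le_rpow s0 s1 (sub_pos.2 p1).le).trans h2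
    have k5 : s = s ^ p * s ^ (1 - p) := by
      rw [← Real.rpow_add' s0 (by simp), add_sub_cancel, Real.rpow_one]
    nlinarith [Real.rpow_nonneg s0 p]
  rw [Real.mul_rpow e.le (by linarith)] at k1
  rw [s2, Real.mul_rpow e.le s0]
  nlinarith [Real.rpow_pos_of_pos e p]

theorem Par.half {d : ℕ} (h : Par p δ d) : d * δ ≤ 1 / 2 := by
  have h0 : 0 ≤ d * δ := mul_nonneg (Nat.cast_nonneg _) h.d0.le
  rcases le_total (d * δ) 1 with e | e
  · exact (Real.self_le_rpow_of_le_one h0 e (by linarith [h.p0])).trans h.rho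
  · linarith [Real.one_le_rpow e (sub_pos.2 h.p1).le, h.rho]

variable {π : G → Equiv.Perm V}

omit [Fintype V] [DecidableEq V] in
theorem sop_le (h : Par p δ (Fintype.card G)) (a : V → 𝕜) (u : V) {t : ℝ} (ht : ∀ x, ‖a x‖ ≤ t) :
    ‖Sop 𝕜 π δ a u‖ ≤ Fintype.card G * δ * t := by
  have := (norm_sum_le univ fun g => a ((π g).symm u)).trans (sum_le_sum fun g _ => ht _)
  rw [sum_const, card_univ, nsmul_eq_mul] at this
  show ‖(δ : 𝕜) * ∑ g, a ((π g).symm u)‖ ≤ _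
  rw [norm_mul, RCLike.norm_ofReal, abs_of_pos h.d0]
  nlinarith [h.d0]

/-- The mass that flows into a vertex. -/
noncomputable def fl (π : G → Equiv.Perm V) (p δ : ℝ) (a : V → 𝕜) (u : V) : ℝ :=
  δ ^ p * ∑ g, ‖a ((π g).symm u)‖ ^ p

omit [Fintype V] [DecidableEq V] in
theorem sop_fl (h : Par p δ (Fintype.card G)) (a : V → 𝕜) (u : V) :
    ‖Sop 𝕜 π δ a u‖ ^ p ≤ fl π p δ a u := by
  show ‖(δ : 𝕜) * ∑ g, a ((π g).symm u)‖ ^ p ≤ _
  rw [norm_mul, RCLike.norm_ofReal, abs_of_pos h.d0, Real.mul_rpow h.d0.le (norm_nonneg _)]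
  exact mul_le_mul_of_nonneg_left (nsum h.p0 h.p1 _ _) (Real.rpow_nonneg h.d0.le _)

omit [DecidableEq V] in
theorem sum_fl (h : Par p δ (Fintype.card G)) (a : V → 𝕜) : ∑ u, fl π p δ a u = En p a := by
  simp only [fl]
  rw [← mul_sum, sum_comm, sum_congr rfl fun g _ =>
    Equiv.sum_comp (π g).symm fun x => ‖a x‖ ^ p, sum_const, card_univ, nsmul_eq_mul, ← mul_assoc,
    mul_comm (δ ^ p), h.one, one_mul, En]

omit [DecidableEq V] in
theorem en_sop (h : Par p δ (Fintype.card G)) (a : V → 𝕜) : En p (Sop 𝕜 π δ a) ≤ En p a :=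
  (sum_le_sum fun u _ => sop_fl h a u).trans_eq (sum_fl h a)

omit [DecidableEq V] in
theorem en_sub (p0 : 0 < p) (p1 : p < 1) (a b : V → 𝕜) : En p (a - b) ≤ En p a + En p b := by
  rw [En, En, En, ← sum_add_distrib]
  exact sum_le_sum fun u _ => by simpa [sub_eq_add_neg] using nsub p0 p1 (a u) (-b u)

omit [DecidableEq V] in
theorem coord (h : Par p δ (Fintype.card G)) (a : V → 𝕜) : ‖a‖ ≤ 2 * ‖a - Sop 𝕜 π δ a‖ := by
  have h0 := mul_nonneg (Nat.cast_nonneg (α := ℝ) (Fintype.card G)) h.d0.le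
  have h1 : ‖Sop 𝕜 π δ a‖ ≤ Fintype.card G * δ * ‖a‖ :=
    (pi_norm_le_iff_of_nonneg (by positivity)).2 fun u => sop_le h a u (norm_le_pi_norm a)
  nlinarith [norm_sub_norm_le a (Sop 𝕜 π δ a), h.half, norm_nonneg a]

theorem greedy (h : Par p δ (Fintype.card G)) (a : V → 𝕜) (A : Finset V)
    (hA : ∀ u ∈ A, ∀ x ∉ A, ‖a x‖ ≤ ‖a u‖) :
    En p (cut Aᶜ a - Sop 𝕜 π δ (cut Aᶜ a)) ≤ 5 * En p (a - Sop 𝕜 π δ a) := by
  obtain ⟨b, hb⟩ : ∃ b, b = cut A a := ⟨_, rfl⟩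
  obtain ⟨c, hc⟩ : ∃ c, c = cut Aᶜ a := ⟨_, rfl⟩
  obtain ⟨y, hy⟩ : ∃ y, y = a - Sop 𝕜 π δ a := ⟨_, rfl⟩
  have e1 : a = b + c := funext fun u => by by_cases k : u ∈ A <;> simp [hb, hc, cut, k]
  have e2 : ∀ u, a u - Sop 𝕜 π δ c u = y u + Sop 𝕜 π δ b u := fun u => by
    rw [hy, Pi.sub_apply, show Sop 𝕜 π δ a = Sop 𝕜 π δ b + Sop 𝕜 π δ c by rw [← map_add, ← e1],
      Pi.add_apply]
    ring
  have e3 : ∀ u, ‖a u - Sop 𝕜 π δ c u‖ ^ p ≤ ‖y u‖ ^ p + fl π p δ b u := fun u =>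
    e2 u ▸ (nsub h.p0 h.p1 _ _).trans (add_le_add le_rfl (sop_fl h b u))
  have k1 : ∑ u ∈ Aᶜ, ‖a u‖ ^ p ≤ ∑ u ∈ Aᶜ, (‖y u‖ ^ p + fl π p δ b u + fl π p δ c u) :=
    sum_le_sum fun u _ => by
      have := nsub h.p0 h.p1 (a u - Sop 𝕜 π δ c u) (Sop 𝕜 π δ c u)
      rw [sub_add_cancel] at this
      linarith [e3 u, sop_fl (π := π) h c u]
  have k2 : ∑ u ∈ A, ‖a u‖ ^ p ≤ ∑ u ∈ A, (‖y u‖ ^ p + fl π p δ b u + fl π p δ c u / 2) :=
    sum_le_sum fun u hu => by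
      have := key h.p0 h.p1 (by linarith [h.half]) h.rho (sop_le (π := π) h c u (t := ‖a u‖)
        fun x => by
          by_cases k : x ∈ A
          · simp [hc, cut, k]
          · simpa [hc, cut, k] using hA u hu x k)
      linarith [e3 u, sop_fl (π := π) h c u]
  have k3 : En p b = ∑ u ∈ A, ‖a u‖ ^ p := by
    rw [En, ← sum_add_sum_compl A, sum_eq_zero (s := Aᶜ) fun u hu => by
      simp [hb, cut, mem_compl.1 hu, Real.zero_rpow h.p0.ne'], add_zero]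
    exact sum_congr rfl fun u hu => by rw [hb, cut, if_pos hu]
  have k4 : En p c = ∑ u ∈ Aᶜ, ‖a u‖ ^ p := by
    rw [En, ← sum_add_sum_compl A, sum_eq_zero fun u hu => by
      simp [hc, cut, hu, Real.zero_rpow h.p0.ne'], zero_add]
    exact sum_congr rfl fun u hu => by rw [hc, cut, if_pos hu]
  have k5 := (sum_add_sum_compl A _).trans (sum_fl (π := π) h b)
  have k6 := (sum_add_sum_compl A _).trans (sum_fl (π := π) h c)
  have k7 : ∑ u ∈ A, ‖y u‖ ^ p + ∑ u ∈ Aᶜ, ‖y u‖ ^ p = En p y := sum_add_sum_compl A _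
  have k8 : ∑ u ∈ A, ‖(c - Sop 𝕜 π δ c) u‖ ^ p ≤ ∑ u ∈ A, fl π p δ c u :=
    sum_le_sum fun u hu => by simpa [hc, cut, hu] using sop_fl (π := π) h c u
  have k9 : ∑ u ∈ Aᶜ, ‖(c - Sop 𝕜 π δ c) u‖ ^ p ≤ ∑ u ∈ Aᶜ, (‖y u‖ ^ p + fl π p δ b u) :=
    sum_le_sum fun u hu => by
      rw [Pi.sub_apply, show c u = a u by rw [hc, cut, if_pos hu]]
      exact e3 u
  have k10 : 0 ≤ ∑ u ∈ A, ‖y u‖ ^ p := sum_nonneg fun _ _ => by positivity
  have k11 : 0 ≤ ∑ u ∈ Aᶜ, ‖y u‖ ^ p := sum_nonneg fun _ _ => by positivity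
  simp only [sum_add_distrib, ← sum_div] at k1 k2 k9
  rw [← hc, ← hy, En, ← sum_add_sum_compl A]
  linarith

theorem geo (p0 : 0 < p) (d0 : 0 < δ) (h : δ ^ p ≤ 1 / 2) (K : ℕ) (η : ℕ → ℕ)
    (hη : ∀ k < K, η k ≤ 1) : ∑ k ∈ range K, (δ ^ p) ^ k * η k ≤ 2 ∧
      ∑ k ∈ range K, (δ ^ p) ^ k * η k ≤ 2 * (∑ k ∈ range K, δ ^ k * η k) ^ p := by
  induction K generalizing η with
  | zero => simp [Real.zero_rpow p0.ne']
  | succ K ih =>
    obtain ⟨h1, h2⟩ := ih (fun k => η (k + 1)) fun k hk => hη _ (by omega)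
    have e : ∀ r : ℝ, ∑ k ∈ range (K + 1), r ^ k * η k =
        r * ∑ k ∈ range K, r ^ k * η (k + 1) + η 0 := fun r => by
      rw [sum_range_succ', mul_sum, pow_zero, one_mul]
      exact congrArg (· + _) (sum_congr rfl fun k _ => by ring)
    have r0 := Real.rpow_pos_of_pos d0 p
    have h3 : 0 ≤ ∑ k ∈ range K, δ ^ k * η (k + 1) := sum_nonneg fun _ _ => by positivity
    have h4 : (η 0 : ℝ) ≤ 1 := by exact_mod_cast hη 0 (by omega)
    have h5 : δ ^ p * ∑ k ∈ range K, (δ ^ p) ^ k * η (k + 1) + η 0 ≤ 2 := by nlinarith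
    rw [e, e]
    refine ⟨h5, ?_⟩
    rcases Nat.le_one_iff_eq_zero_or_eq_one.1 (hη 0 (by omega)) with k | k
    · rw [k, Nat.cast_zero, add_zero, add_zero, Real.mul_rpow d0.le h3]
      nlinarith
    · have := Real.one_le_rpow (x := δ * ∑ k ∈ range K, δ ^ k * η (k + 1) + η 0)
        (by rw [k]; simpa using mul_nonneg d0.le h3) p0.le
      linarith

theorem sum_cnt (k : ℕ) (u : V) : ∑ v, cnt π v k u = Fintype.card G ^ k := by
  induction k generalizing u with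
  | zero => simp [cnt]
  | succ k ih =>
    simp only [cnt]
    rw [sum_comm]
    simp [ih, pow_succ']

theorem bad (h : Par p δ (Fintype.card G)) {K s : ℕ} (hG : Gr π K s) (hK : 0 < K) (A : Finset V)
    (hA : A.card = s) : ∃ a : V → 𝕜, En p (a - Sop 𝕜 π δ a) ≤ 2 ∧
      (K : ℝ) ≤ 16 * En p (cut A a - Sop 𝕜 π δ (cut A a)) := by
  obtain ⟨c, hc⟩ : ∃ c : V → ℕ → V → 𝕜, ∀ v k u, c v k u = (δ ^ k * cnt π v k u : ℝ) :=
    ⟨_, fun _ _ _ => rfl⟩
  have c1 : ∀ v k, Sop 𝕜 π δ (c v k) = c v (k + 1) := fun v k => funext fun u => by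
    show (δ : 𝕜) * ∑ g, c v k ((π g).symm u) = _
    simp only [hc, cnt]
    push_cast
    rw [← mul_sum]
    ring
  have c2 : ∀ v k, En p (c v k) ≤ 1 := fun v k => by
    induction k with
    | zero =>
      rw [En, sum_eq_single v (fun u _ e => by simp [hc, cnt, e, Real.zero_rpow h.p0.ne']) (by simp)]
      simp [hc, cnt]
    | succ k ih => exact c1 v k ▸ (en_sop h _).trans ih
  obtain ⟨η, hη⟩ : ∃ η : V → V → ℕ → ℕ, ∀ v u k, η v u k =
    ∑ g, if (π g).symm u ∈ A ∧ u ∉ A then cnt π v k ((π g).symm u) else 0 := ⟨_, fun _ _ _ => rfl⟩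
  have d0 := h.d0
  have d1 : (2 : ℝ) ≤ Fintype.card G := by exact_mod_cast h.two
  have r0 := Real.rpow_pos_of_pos d0 p
  have c3 : ∀ v, δ ^ p * ∑ u, ∑ k ∈ range K, (δ ^ p) ^ k * η v u k ≤ 2 * En p
      (cut A (∑ k ∈ range K, c v k) - Sop 𝕜 π δ (cut A (∑ k ∈ range K, c v k))) := fun v => by
    rw [En, mul_sum, mul_sum]
    refine sum_le_sum fun u _ => ?_
    by_cases e : u ∈ A
    · simp only [hη, e, not_true, and_false, if_false, sum_const_zero, Nat.cast_zero, mul_zero]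
      positivity
    have k1 := (geo h.p0 d0 (by nlinarith [h.one]) K (η v u) fun k hk => by
      refine le_trans ?_ (hG.free v (k + 1) u hk)
      rw [hη, cnt]
      exact sum_le_sum fun g _ => by split_ifs <;> simp).2
    have k2 : 0 ≤ ∑ k ∈ range K, δ ^ k * η v u k := sum_nonneg fun _ _ => by positivity
    have k3 : Sop 𝕜 π δ (cut A (∑ k ∈ range K, c v k)) u =
        (δ * ∑ k ∈ range K, δ ^ k * η v u k : ℝ) := by
      show (δ : 𝕜) * ∑ g, cut A (∑ k ∈ range K, c v k) ((π g).symm u) = _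
      simp only [hη, e, not_false_iff, and_true, cut, Finset.sum_apply, hc]
      push_cast
      simp only [mul_sum _ _ ((δ : 𝕜) ^ _)]
      rw [sum_comm (s := range K)]
      refine congrArg _ (sum_congr rfl fun g _ => ?_)
      split_ifs <;> simp
    rw [Pi.sub_apply, k3, cut, if_neg e, zero_sub, norm_neg, RCLike.norm_ofReal,
      abs_of_nonneg (mul_nonneg d0.le k2), Real.mul_rpow d0.le k2]
    nlinarith
  have c4 : ∀ u k, ∑ v, (δ ^ p) ^ k * η v u k =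
      ∑ g, if (π g).symm u ∈ A ∧ u ∉ A then (1 : ℝ) else 0 := fun u k => by
    rw [← mul_sum, ← Nat.cast_sum]
    simp only [hη]
    rw [sum_comm, Nat.cast_sum, mul_sum]
    refine sum_congr rfl fun g _ => ?_
    split_ifs
    · rw [sum_cnt, Nat.cast_pow, ← mul_pow, mul_comm, h.one, one_pow]
    · simp
  have c5 : ∑ v, ∑ u, ∑ k ∈ range K, (δ ^ p) ^ k * η v u k =
      K * ∑ g, ∑ u, if u ∈ A ∧ π g u ∉ A then (1 : ℝ) else 0 := by
    rw [sum_comm, sum_congr rfl fun u _ => sum_comm]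
    simp only [c4, sum_const, card_range, nsmul_eq_mul]
    rw [← mul_sum, sum_comm]
    refine congrArg _ (sum_congr rfl fun g _ => ?_)
    rw [← Equiv.sum_comp (π g)]
    simp only [Equiv.symm_apply_apply]
  have : Nonempty V := Fintype.card_pos_iff.1 (by have := hG.half; have := hG.big; omega)
  obtain ⟨v, -, hv⟩ := exists_le_of_sum_le (s := univ) univ_nonempty (f := fun _ : V => (K : ℝ))
    (g := fun v => 16 * En p (cut A (∑ k ∈ range K, c v k) -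
      Sop 𝕜 π δ (cut A (∑ k ∈ range K, c v k)))) (by
      have k1 := sum_le_sum fun v (_ : v ∈ univ) => c3 v
      have k2 := mul_le_mul_of_nonneg_left (hG.exp A hA) (mul_nonneg r0.le (Nat.cast_nonneg K))
      rw [← mul_sum, ← mul_sum, c5] at k1
      rw [← mul_sum, sum_const, card_univ, nsmul_eq_mul]
      have k3 := congrArg (· * (K * Fintype.card V : ℝ)) h.one
      linarith)
  refine ⟨_, ?_, hv⟩
  rw [map_sum, ← sum_sub_distrib]
  simp only [c1]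
  rw [sum_range_sub']
  linarith [en_sub h.p0 h.p1 (c v 0) (c v K), c2 v 0, c2 v K]

theorem exists_par (p0 : 0 < p) (p1 : p < 1) :
    ∃ D : ℕ, ∀ d : ℕ, D ≤ d → Par p ((d : ℝ) ^ (-p⁻¹)) d := by
  have h0 : 0 < (p⁻¹ - 1) * (1 - p) := mul_pos (sub_pos.2 ((one_lt_inv₀ p0).2 p1)) (sub_pos.2 p1)
  obtain ⟨D, hD⟩ := Filter.eventually_atTop.1
    ((((tendsto_rpow_neg_atTop h0).comp tendsto_natCast_atTop_atTop).eventually_le_const
      (one_half_pos (α := ℝ))).and (Filter.eventually_ge_atTop 2))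
  refine ⟨D, fun d hd => ?_⟩
  have d0 : (0 : ℝ) < d := by exact_mod_cast (by have := (hD d hd).2; omega : 0 < d)
  refine ⟨p0, p1, Real.rpow_pos_of_pos d0 _, ?_, ?_, (hD d hd).2⟩
  · rw [← Real.rpow_mul d0.le, neg_mul, inv_mul_cancel₀ p0.ne', Real.rpow_neg_one,
      mul_inv_cancel₀ d0.ne']
  · rw [mul_comm, ← Real.rpow_add_one d0.ne', ← Real.rpow_mul d0.le]
    refine le_of_eq_of_le (congrArg _ (by ring)) (hD d hd).1

end Pool.Agent.Lib.MP_a2b538_an.Sm
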