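import Mathlib
import Pool.Agent.Lib.MP_a2b538_an.Sm.Asm

namespace Pool.Agent.Lib.MP_a2b538_an.Sm.EllSmall

open Filter Topology

variable {𝕜 : Type} [RCLike 𝕜] {X : Type} [AddCommGroup X] [Module 𝕜 X] [Norm X]

/-- fundamental, biorthogonal, semi-normalized, M-bounded -/
def IsBasis (e : ℕ → X) (f : ℕ → X →ₗ[𝕜] 𝕜) : Prop :=
  (∀ (x : X) (ε : ℝ), 0 < ε → ∃ y ∈ Submodule.span 𝕜 (Set.range e), ‖x - y‖ < ε) ∧
    (∀ n k, f n (e k) = if n = k then 1 else 0) ∧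
    (∃ c C : ℝ, 0 < c ∧ ∀ n, c ≤ ‖e n‖ ∧ ‖e n‖ ≤ C) ∧
    (∃ M : ℝ, ∀ n x, ‖e n‖ * ‖f n x‖ ≤ M * ‖x‖)

/-- every greedy series converges to the vector in the quasi-norm -/
def IsQuasiGreedy (e : ℕ → X) (f : ℕ → X →ₗ[𝕜] 𝕜) : Prop :=
  ∀ (x : X) (D : Set ℕ) (ρ : ℕ → ℕ), IsLowerSet D → Set.InjOn ρ D → ρ '' D = {n | f n x ≠ 0} →
    (∀ j ∈ D, ∀ k ∈ D, j < k → ‖f (ρ k) x‖ ≤ ‖f (ρ j) x‖) →
    Tendsto (fun N => ‖x - ∑ j ∈ Finset.range N, D.indicator (fun j => f (ρ j) x • e (ρ j)) j‖)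
      atTop (𝓝 0)

/-- every vector has a unique expansion that converges in the quasi-norm -/
def IsSchauderBasis (𝕜 : Type) [RCLike 𝕜] [Module 𝕜 X] (y : ℕ → X) : Prop :=
  ∀ x : X, ∃! a : ℕ → 𝕜, Tendsto (fun N => ‖x - ∑ n ∈ Finset.range N, a n • y n‖) atTop (𝓝 0)

theorem result (𝕜 : Type) [RCLike 𝕜] (p : ENNReal) (h0 : 0 < p) (h1 : p < 1) :
    ∃ (e : ℕ → lp (fun _ : ℕ => 𝕜) p) (f : ℕ → lp (fun _ : ℕ => 𝕜) p →ₗ[𝕜] 𝕜),
      IsBasis e f ∧ IsQuasiGreedy e f ∧ ∀ π : ℕ ≃ ℕ, ¬ IsSchauderBasis 𝕜 (fun n => e (π n)) := by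
  classical
  have p0 : 0 < p.toReal := ENNReal.toReal_pos h0.ne' h1.ne_top
  obtain ⟨e, f, bl, fin, bi, up, co, qg, bad⟩ := Lib.MP_a2b538_an.Sm.core (𝕜 := 𝕜) p0
    (by simpa using (ENNReal.toReal_lt_toReal h1.ne_top ENNReal.one_ne_top).2 h1)
  have u1 : ∀ n, ‖e n‖ ≤ 2 ^ p.toReal⁻¹ := fun n =>
    (Real.le_rpow_inv_iff_of_pos (lp.norm_nonneg' _) zero_le_two p0).2 (up n)
  refine ⟨e, f, ⟨fun x ε hε => ?_, bi, ⟨1 / 2, _, one_half_pos, fun n => ⟨?_, u1 n⟩⟩,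
    2 ^ p.toReal⁻¹ * 2, fun n x => ?_⟩, fun x D ρ _ h2 h3 h4 => ?_, fun π hπ => ?_⟩
  · obtain ⟨N, hN⟩ := ((qg x (fun N => (fin N).toFinset) (fun N n hn k hk h => absurd
      (by simpa [h] using hn) hk) fun n _ => (eventually_gt_atTop (bl n)).mono fun N hN => by
        simpa using hN).eventually (gt_mem_nhds hε)).exists
    exact ⟨_, Submodule.sum_mem _ fun n _ => Submodule.smul_mem _ _
      (Submodule.subset_span ⟨n, rfl⟩), hN⟩
  · have := co n (e n)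
    rw [bi, if_pos rfl, norm_one] at this
    linarith
  · rw [mul_assoc]
    exact mul_le_mul (u1 n) (co n x) (norm_nonneg _) (by positivity)
  · refine (qg x (fun N => ((Finset.range N).filter (· ∈ D)).image ρ) (fun N n hn k hk _ => ?_)
      fun n hn => ?_).congr fun N => ?_
    · obtain ⟨j, hj, rfl⟩ := Finset.mem_image.1 hn
      rw [Finset.mem_filter, Finset.mem_range] at hj
      by_cases h : f k x = 0
      · rw [h, norm_zero]
        exact norm_nonneg _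
      obtain ⟨i, hi, rfl⟩ : k ∈ ρ '' D := h3.symm ▸ h
      refine h4 j hj.2 i hi (hj.1.trans_le (not_lt.1 fun c => hk ?_))
      exact Finset.mem_image_of_mem _ (Finset.mem_filter.2 ⟨Finset.mem_range.2 c, hi⟩)
    · obtain ⟨i, hi, rfl⟩ : n ∈ ρ '' D := h3.symm ▸ hn
      exact (eventually_gt_atTop i).mono fun N c =>
        Finset.mem_image_of_mem _ (Finset.mem_filter.2 ⟨Finset.mem_range.2 c, hi⟩)
    · rw [Finset.sum_image fun i hi j hj => h2 (Finset.mem_filter.1 hi).2 (Finset.mem_filter.1 hj).2,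
        Finset.sum_filter]
      simp only [Set.indicator_apply]
  · obtain ⟨x, hx⟩ := bad π
    obtain ⟨a, ha, -⟩ := hπ x
    have k1 : ∀ n, a n = f (π n) x := fun n => by
      refine (sub_eq_zero.1 (norm_le_zero_iff.1 (ge_of_tendsto (by simpa using ha.const_mul 2)
        ((eventually_gt_atTop n).mono fun N hN => ?_)))).symm
      have := co (π n) (x - ∑ n ∈ Finset.range N, a n • e (π n))
      simpa [bi, hN] using this
    simp only [k1] at ha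
    obtain ⟨m, hm⟩ := eventually_atTop.1 (ha.eventually (gt_mem_nhds one_pos))
    obtain ⟨N, h2, h3⟩ := hx m
    exact absurd (hm N h2) (not_lt.2 h3)

end Pool.Agent.Lib.MP_a2b538_an.Sm.EllSmall
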