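import Pool.Agent.Lib.MP_a2b538_an.L1.Four

/-! An expander given by permutations in which short words are free. -/

namespace Pool.Agent.Lib.MP_a2b538_an.Sm

open Finset L1

/-- The number of words of length `k` that lead from `v` to `u`. -/
def cnt {V G : Type} [DecidableEq V] [Fintype G] (π : G → Equiv.Perm V) (v : V) : ℕ → V → ℕ
  | 0, u => if u = v then 1 else 0
  | k + 1, u => ∑ g, cnt π v k ((π g).symm u)

/-- Short words are free, and sets of size `s` have many leaving edges. -/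
structure Gr {V G : Type} [Fintype V] [DecidableEq V] [Fintype G] (π : G → Equiv.Perm V)
    (K s : ℕ) : Prop where
  free : ∀ v k u, k ≤ K → cnt π v k u ≤ 1
  half : 2 * s = Fintype.card V
  big : K ≤ s
  exp : ∀ A : Finset V, A.card = s → (Fintype.card G * Fintype.card V : ℝ) ≤
    8 * ∑ g, ∑ u, if u ∈ A ∧ π g u ∉ A then (1 : ℝ) else 0

variable {F : Type} [Field F] [Fintype F] [DecidableEq F] {n : ℕ} {ψ : F → ℝ}

theorem wk2 (h : Sgn ψ) (f f' : (Fin n → F) → ℝ) (z : Fin n → F) :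
    ∑ ξ, (∑ x, ψ (dot ξ x) * f x) * (∑ x, ψ (dot ξ x) * f' x) * ψ (dot ξ z) =
      Fintype.card (Fin n → F) * ∑ x, f x * f' (x + z) := by
  have e1 : ∀ ξ, (∑ x, ψ (dot ξ x) * f x) * (∑ x, ψ (dot ξ x) * f' x) * ψ (dot ξ z) =
      ∑ x, ∑ y, f x * f' y * ψ (dot ξ (x + z + y)) := fun ξ => by
    rw [sum_mul_sum, Finset.sum_mul]
    refine sum_congr rfl fun x _ => ?_
    rw [Finset.sum_mul]
    refine sum_congr rfl fun y _ => ?_
    rw [dot_add, dot_add, h.add, h.add]
    ring
  have e2 : ∀ u y : Fin n → F, u + y = 0 ↔ y = u := fun u y => by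
    have : u + u = 0 := funext fun i => h.two (u i)
    exact ⟨fun e => add_left_cancel (e.trans this.symm), fun e => e ▸ this⟩
  simp only [e1]
  rw [sum_comm, mul_sum]
  refine sum_congr rfl fun x _ => ?_
  rw [sum_comm]
  simp only [← mul_sum, h.sum_dot, e2, mul_ite, mul_zero, sum_ite_eq', mem_univ, if_true]
  ring

theorem mix (h : Sgn ψ) {G : Type} [Fintype G] (z : G → Fin n → F)
    (hz : ∀ ξ, ξ ≠ 0 → |∑ g, ψ (dot ξ (z g))| ≤ Fintype.card G / 4) (f f' : (Fin n → F) → ℝ) :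
    Fintype.card (Fin n → F) * ∑ g, ∑ x, f x * f' (x + z g) ≤
      Fintype.card G * ((∑ x, f x) * ∑ x, f' x) + Fintype.card G / 8 *
        (Fintype.card (Fin n → F) * ∑ x, f x * f x + Fintype.card (Fin n → F) * ∑ x, f' x * f' x) := by
  have e := fun f => wk2 h f f (0 : Fin n → F)
  simp only [dot, Pi.zero_apply, mul_zero, sum_const_zero, h.zero, mul_one, add_zero] at e
  have e0 : ∀ x : Fin n → F, ψ (dot 0 x) = 1 := fun x => by simp [dot, h.zero]
  rw [← e, ← e, ← sum_add_distrib, mul_sum, mul_sum _ _ (Fintype.card G / 8 : ℝ)]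
  simp only [← wk2 h]
  rw [sum_comm, ← add_sum_erase _ _ (mem_univ 0)]
  simp only [e0, one_mul, mul_one, sum_const, card_univ, nsmul_eq_mul]
  refine add_le_add le_rfl ((sum_le_sum fun ξ hξ => ?_).trans
    (sum_le_sum_of_subset_of_nonneg (erase_subset (0 : Fin n → F) univ) fun ξ _ _ =>
      mul_nonneg (by positivity) (add_nonneg (mul_self_nonneg _) (mul_self_nonneg _))))
  rw [← mul_sum]
  have k := abs_le.1 (hz ξ (ne_of_mem_erase hξ))
  simp only [dot] at k ⊢
  generalize (∑ x, ψ (∑ i, ξ i * x i) * f x) = a, (∑ x, ψ (∑ i, ξ i * x i) * f' x) = b,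
    (∑ g, ψ (∑ i, ξ i * z g i)) = c, (Fintype.card G : ℝ) = d at k ⊢
  nlinarith [mul_nonneg (sub_nonneg.2 k.2) (sq_nonneg (a + b)),
    mul_nonneg (sub_nonneg.2 k.1) (sq_nonneg (a - b))]

theorem bias (h : Sgn ψ) {m : ℕ} (a : Fin m → F) (ha : Function.Injective a) (hm : 8 * n ≤ m)
    (hq : 5 ≤ Fintype.card F) (ξ : Fin n → F) (hξ : ξ ≠ 0) :
    |∑ g : Fin m × {b : F // b ≠ 0}, ψ (dot ξ (gen n (a g.1, g.2)))| ≤
      Fintype.card (Fin m × {b : F // b ≠ 0}) / 4 := by
  have e1 : ∀ i : Fin m, ∑ b : {b : F // b ≠ 0}, ψ (dot ξ (gen n (a i, b))) =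
      (if ∑ j, ξ j * a i ^ (j : ℕ) = 0 then (Fintype.card F : ℝ) else 0) - 1 := fun i => by
    rw [← h.sum_mul, Fintype.sum_eq_add_sum_subtype_ne (fun b : F => ψ (b * _)) 0, zero_mul, h.zero,
      add_sub_cancel_left]
    refine sum_congr rfl fun b _ => congrArg ψ ?_
    rw [dot, mul_sum]
    exact sum_congr rfl fun j _ => by simp only [gen]; ring
  have e2 : (univ.filter fun i : Fin m => ∑ j, ξ j * a i ^ (j : ℕ) = 0).card ≤ n :=
    (card_le_card_of_injOn a (fun i hi => by simpa using hi) ha.injOn).trans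
      (card_roots 0 ξ fun e => hξ e.2)
  have e3 : (Fintype.card {b : F // b ≠ 0} : ℝ) = Fintype.card F - 1 := by
    have := Fintype.sum_eq_add_sum_subtype_ne (fun _ : F => (1 : ℝ)) 0
    simp only [sum_const, card_univ, nsmul_eq_mul, mul_one] at this
    linarith
  rw [Fintype.sum_prod_type]
  simp only [e1, sum_sub_distrib]
  rw [← sum_filter, sum_const, sum_const, card_univ, Fintype.card_prod, Fintype.card_fin,
    Nat.cast_mul, e3, nsmul_eq_mul, nsmul_eq_mul, abs_le]
  have k1 : (8 * n : ℝ) ≤ m := by exact_mod_cast hm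
  have k2 : (5 : ℝ) ≤ Fintype.card F := by exact_mod_cast hq
  have k3 := (Nat.cast_le (α := ℝ)).2 e2
  have k4 := Nat.cast_nonneg (α := ℝ)
    (univ.filter fun i : Fin m => ∑ j, ξ j * a i ^ (j : ℕ) = 0).card
  have k5 := Nat.cast_nonneg (α := ℝ) m
  constructor <;> nlinarith

omit [DecidableEq F] in
theorem indep {ι : Type} [Fintype ι] [DecidableEq F] (x b : ι → F) (hn : Fintype.card ι ≤ n)
    (h : ∀ i : Fin n, ∑ l, b l * x l ^ (i : ℕ) = 0) (a : F) :
    ∑ l, (if x l = a then b l else 0) = 0 := by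
  refine congrFun (vander (n := n) (fun a => ∑ l, if x l = a then b l else 0) ?_ fun i => ?_) a
  · refine (Set.ncard_le_ncard (t := Set.range x) (fun a ha => ?_)).trans ?_
    · by_contra e
      exact ha (sum_eq_zero fun l _ => if_neg fun k => e ⟨l, k⟩)
    · rw [← Set.image_univ]
      exact (Set.ncard_image_le (Set.toFinite _)).trans (by simpa [Set.ncard_univ] using hn)
  · simp only [Finset.sum_mul, ite_mul, zero_mul]
    rw [sum_comm]
    simpa using h i

theorem graph (h : Sgn ψ) {K m s : ℕ} (l : Fˣ) (hl : K * m ≤ orderOf l) (hK : 0 < K)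
    (hn : 2 * K ≤ n) (hm : 8 * n ≤ m) (hq : 5 ≤ Fintype.card F)
    (hs : 2 * s = Fintype.card (Fin n → F)) (hb : K ≤ s) :
    ∃ π : Fin m × {b : F // b ≠ 0} → Equiv.Perm (Fin n → F), Gr π K s := by
  have pj : ∀ (j j' : ℕ) (i i' : Fin m), j < K → j' < K →
      (l : F) ^ (j + K * i) = l ^ (j' + K * i') → j = j' ∧ i = i' := fun j j' i i' h1 h2 e => by
    have b : ∀ (j : ℕ) (i : Fin m), j < K → j + K * i < orderOf l := fun j i hj =>
      lt_of_lt_of_le (by nlinarith [i.2]) hl
    have e1 := pow_injOn_Iio_orderOf (b j i h1) (b j' i' h2) (Units.ext (by simpa using e))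
    have e2 := congrArg (· % K) e1
    simp only [Nat.add_mul_mod_self_left, Nat.mod_eq_of_lt h1, Nat.mod_eq_of_lt h2] at e2
    subst e2
    exact ⟨rfl, Fin.ext (Nat.eq_of_mul_eq_mul_left hK (Nat.add_left_cancel e1))⟩
  let σ : Equiv.Perm (Fin n → F) :=
    Equiv.piCongrRight fun i => Equiv.mulLeft₀ ((l : F) ^ (i : ℕ)) (pow_ne_zero _ l.ne_zero)
  let z : Fin m × {b : F // b ≠ 0} → Fin n → F := fun g => gen n ((l : F) ^ (0 + K * g.1), g.2)
  obtain ⟨π, hπ⟩ : ∃ π : Fin m × {b : F // b ≠ 0} → Equiv.Perm (Fin n → F),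
    ∀ g x, π g x = σ x + z g := ⟨fun g => σ.trans (Equiv.addRight (z g)), fun _ _ => rfl⟩
  have rep : ∀ v k u g, cnt π v k ((π g).symm u) ≠ 0 → ∃ w : ℕ → Fin m × {b : F // b ≠ 0},
      w 0 = g ∧ ∀ i : Fin n, u i = ((l : F) ^ (i : ℕ)) ^ (k + 1) * v i +
        ∑ j ∈ range (k + 1), (w j).2 * ((l : F) ^ (j + K * (w j).1)) ^ (i : ℕ) := fun v k => by
    have st : ∀ g u (i : Fin n), u i = (l : F) ^ (i : ℕ) * (π g).symm u i +
        g.2 * ((l : F) ^ (0 + K * g.1)) ^ (i : ℕ) := fun g u i =>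
      congrFun (((π g).apply_symm_apply u).symm.trans (hπ g _)) i
    induction k with
    | zero =>
      refine fun u g e => ⟨fun _ => g, rfl, fun i => ?_⟩
      have e1 : (π g).symm u = v := by simpa [cnt] using e
      rw [st g u i, e1]
      simp
    | succ k ih =>
      intro u g e
      obtain ⟨g', -, e1⟩ := exists_ne_zero_of_sum_ne_zero e
      obtain ⟨w, -, hw⟩ := ih _ g' e1
      refine ⟨fun j => Nat.rec g (fun j _ => w j) j, rfl, fun i => ?_⟩
      rw [st g u i, hw i, sum_range_succ' _ (k + 1), mul_add, mul_sum, ← add_assoc]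
      refine congrArg₂ _ (congrArg₂ _ (by ring) (sum_congr rfl fun j _ => ?_)) rfl
      simp only [Nat.rec_add_one]
      ring
  refine ⟨π, fun v k => ?_, hs, hb, fun A hA => ?_⟩
  · induction k with
    | zero => exact fun u _ => by rw [cnt]; split_ifs <;> omega
    | succ k ih =>
      intro u hk
      by_cases e : cnt π v (k + 1) u = 0
      · omega
      obtain ⟨g, -, e1⟩ := exists_ne_zero_of_sum_ne_zero e
      rw [cnt, sum_eq_single g (fun g' _ k1 => ?_) (by simp)]
      · exact ih _ (by omega)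
      by_contra e2
      obtain ⟨w, rfl, hw⟩ := rep v k u g e1
      obtain ⟨w', rfl, hw'⟩ := rep v k u g' e2
      have k2 := indep (n := n) (ι := Fin (k + 1) ⊕ Fin (k + 1))
        (Sum.elim (fun j => (l : F) ^ (j + K * (w j).1)) fun j => (l : F) ^ (j + K * (w' j).1))
        (Sum.elim (fun j => (w j).2) fun j => -(w' j).2) (by simp; omega) (fun i => by
          have k3 := add_left_cancel ((hw i).symm.trans (hw' i))
          rw [sum_range, sum_range] at k3
          simp only [Fintype.sum_sum_type, Sum.elim_inl, Sum.elim_inr, neg_mul, sum_neg_distrib, k3,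
            add_neg_cancel]) ((l : F) ^ (0 + K * (w 0).1))
      simp only [Fintype.sum_sum_type, Sum.elim_inl, Sum.elim_inr] at k2
      rw [sum_eq_single 0 (fun j _ k3 => if_neg fun k4 =>
          k3 (Fin.ext (pj _ _ _ _ (by omega) hK k4).1)) (by simp),
        sum_eq_single 0 (fun j _ k3 => if_neg fun k4 =>
          k3 (Fin.ext (pj _ _ _ _ (by omega) hK k4).1)) (by simp)] at k2
      simp only [Fin.val_zero, if_true] at k2
      split_ifs at k2 with k3
      · exact k1 (Prod.ext (pj _ _ _ _ hK hK k3).2 (Subtype.ext (add_neg_eq_zero.1 k2).symm))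
      · exact (w 0).2.2 (by simpa using k2)
  · have k1 := mix h z (bias h (fun i => (l : F) ^ (0 + K * (i : ℕ)))
      (fun i i' e => (pj 0 0 i i' hK hK e).2) hm hq)
      (fun x => if σ.symm x ∈ A then 1 else 0) fun x => if x ∈ A then 1 else 0
    have k2 : ∑ x, (if x ∈ A then (1 : ℝ) else 0) = s := by simp [hA]
    have k3 : ∑ x, (if σ.symm x ∈ A then (1 : ℝ) else 0) = s :=
      (Equiv.sum_comp σ.symm fun x => if x ∈ A then (1 : ℝ) else 0).trans k2
    have k4 : ∀ (p : Prop) [Decidable p], (if p then (1 : ℝ) else 0) * (if p then 1 else 0) =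
      if p then 1 else 0 := fun p _ => by split_ifs <;> simp
    have k5 : ∀ g, ∑ x, (if σ.symm x ∈ A then (1 : ℝ) else 0) * (if x + z g ∈ A then 1 else 0) =
        s - ∑ u, if u ∈ A ∧ π g u ∉ A then (1 : ℝ) else 0 := fun g => by
      rw [← Equiv.sum_comp σ, ← k2, ← sum_sub_distrib]
      refine sum_congr rfl fun u _ => ?_
      rw [σ.symm_apply_apply, hπ]
      by_cases a : u ∈ A <;> by_cases b : σ u + z g ∈ A <;> simp [a, b]
    simp only [k4, k2, k3, k5, sum_sub_distrib, sum_const, card_univ, nsmul_eq_mul] at k1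
    have k6 : (Fintype.card (Fin n → F) : ℝ) = 2 * s := by exact_mod_cast hs.symm
    have k7 : (0 : ℝ) < s := by exact_mod_cast hK.trans_le hb
    rw [k6] at k1 ⊢
    refine le_of_mul_le_mul_left ?_ k7
    linarith

theorem exists_gr (K D : ℕ) (hK : 0 < K) : ∃ (V G : Type) (_ : Fintype V) (_ : DecidableEq V)
    (_ : Fintype G) (π : G → Equiv.Perm V) (s : ℕ), Gr π K s ∧ D ≤ Fintype.card G := by
  classical
  obtain ⟨r, hr⟩ : ∃ r, r = K * (8 * (2 * K) + D) + 5 := ⟨_, rfl⟩
  let F := GaloisField 2 r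
  let _ : Fintype F := Fintype.ofFinite F
  have hc : Fintype.card F = 2 ^ r := by
    rw [← Nat.card_eq_fintype_card]
    exact GaloisField.card 2 r (by omega)
  have two : ∀ x : F, x + x = 0 := CharTwo.add_self_eq_zero
  obtain ⟨χ, hχ⟩ := (AddChar.exists_apply_ne_zero (α := F) (a := 1)).2 one_ne_zero
  have h1 : ∀ x, χ x = 1 ∨ χ x = -1 := fun x =>
    mul_self_eq_one_iff.1 (by rw [← χ.map_add_eq_mul, two, χ.map_zero_eq_one])
  have h : Sgn fun x : F => (χ x).re := by
    refine ⟨fun x y => ?_, by simp, two, 1, by simp [(h1 1).resolve_left hχ]⟩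
    rw [χ.map_add_eq_mul]
    rcases h1 x with e | e <;> simp [e]
  have h2 : r < Fintype.card F := hc ▸ Nat.lt_two_pow_self
  obtain ⟨s, hs⟩ : 2 ∣ Fintype.card (Fin (2 * K) → F) := by
    rw [Fintype.card_fun, Fintype.card_fin, hc]
    exact dvd_pow (dvd_pow_self 2 (by omega)) (by omega)
  obtain ⟨l, hl⟩ := isCyclic_iff_exists_orderOf_eq_natCard.1 (inferInstance : IsCyclic Fˣ)
  rw [Nat.card_eq_fintype_card, Fintype.card_units] at hl
  obtain ⟨π, hπ⟩ := graph h (K := K) (m := 8 * (2 * K) + D) (n := 2 * K) l (by omega) hK le_rfl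
    (by omega) (by omega) hs.symm (by
      rw [Fintype.card_fun, Fintype.card_fin] at hs
      have := Nat.lt_pow_self (n := 2 * K) (show 1 < Fintype.card F by omega)
      omega)
  refine ⟨_, _, inferInstance, inferInstance, inferInstance, π, s, hπ, ?_⟩
  have : Nonempty {b : F // b ≠ 0} := ⟨⟨1, one_ne_zero⟩⟩
  rw [Fintype.card_prod, Fintype.card_fin]
  exact (Nat.le_add_left _ _).trans (Nat.le_mul_of_pos_right _ Fintype.card_pos)

end Pool.Agent.Lib.MP_a2b538_an.Sm
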